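import Pool.Agent.SZG.StmtsF

/-! Squad SZG, row FDF: the functions `FF` are entire. -/

set_option autoImplicit false

namespace Pool.Agent.SZG.H76

open Pool.Agent.THS Pool.Agent.SZG

theorem siegel_two {g : ℕ} {τ : Matrix (Fin g) (Fin g) ℂ} (h : Siegel τ) :
    Siegel ((2 : ℂ) • τ) := by
  refine ⟨?_, ?_⟩
  · rw [Matrix.transpose_smul, h.1]
  · have e : ((2 : ℂ) • τ).map Complex.im = (2 : ℝ) • τ.map Complex.im := by
      ext i j
      simp [Matrix.map_apply, Matrix.smul_apply]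
    rw [e]
    exact h.2.smul (by norm_num)

/-- **FDF** -/
theorem fdf (tdf : TdfStmt) : FdfStmt := by
  intro g τ hτ l p q a
  unfold FF Thc
  have h1 := tdf g ((2 : ℂ) • τ) (siegel_two hτ) (hv a)
  have h2 : Differentiable ℂ (fun w : Fin g → ℂ => fun r : Fin g =>
      2 * (2 * (l : ℂ) * w r + 2 * ((p r : ℂ) + ∑ j, τ r j * (q j : ℂ)) / (l : ℂ))) := by
    fun_prop
  have h3 := h1.comp h2
  have h4 : Differentiable ℂ (fun w : Fin g → ℂ =>
      Complex.exp (16 * Real.pi * Complex.I * ∑ i, (q i : ℂ) * w i)) := by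
    fun_prop
  exact h4.mul h3

end Pool.Agent.SZG.H76
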